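import Pool.Agent.H23.CM4.Targets

/-!
# (XF) the completed `L`-function, for `Re s > 0`
-/

set_option autoImplicit false

open NumberField MeasureTheory Set Filter Complex
open scoped nonZeroDivisors Real

namespace Pool.Agent.H64.CM4

open Pool.Agent.H23.CM4
open Pool.Agent.H31.CN (IsLf)
open Pool.Agent.H61.FM (CC pv Sp)
open Pool.Agent.H65.CM4 (gG Kc Sq nm dg)
open Pool.Agent.H25.HK (FI Pri du)

/-- functions equal for `Re s > 1` and holomorphic outside `1` are equal -/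
theorem eq_of_half {A B : ℂ → ℂ} (hA : DifferentiableOn ℂ A {1}ᶜ) (hB : DifferentiableOn ℂ B {1}ᶜ)
    (h : ∀ s : ℂ, 1 < s.re → A s = B s) (s : ℂ) (hs : s ≠ 1) : A s = B s := by
  have hA' := hA.analyticOnNhd isOpen_compl_singleton
  have hB' := hB.analyticOnNhd isOpen_compl_singleton
  have hc : IsPreconnected ({1}ᶜ : Set ℂ) := by
    have : 1 < Module.rank ℝ ℂ := by
      rw [Complex.rank_real_complex]
      norm_num
    exact (isConnected_compl_singleton_of_one_lt_rank this 1).isPreconnected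
  have h2 : (2 : ℂ) ∈ ({1}ᶜ : Set ℂ) := by
    simp
  have he : A =ᶠ[nhds 2] B := by
    have ho : IsOpen {s : ℂ | 1 < s.re} := isOpen_lt continuous_const Complex.continuous_re
    have hm : (2 : ℂ) ∈ {s : ℂ | 1 < s.re} := by
      change (1 : ℝ) < (2 : ℂ).re
      simp
    filter_upwards [ho.mem_nhds hm] with s hs
    exact h s hs
  exact hA'.eqOn_of_preconnected_of_eventuallyEq hB' hc h2 he hs

theorem pf_XF (_hDSM : T_DSM) (hGGE : T_GGE) : T_XF := by
  intro n K _ _ _hK ψ F Ξ hF hΞ hsum s hs0 hs1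
  obtain ⟨-, -, g, hg, hgG⟩ := hGGE
  have hd : ((dK K : ℝ) : ℂ) ≠ 0 := by
    have h1 : (discr K : ℝ) ≠ 0 := by
      exact_mod_cast NumberField.discr_ne_zero K
    have h2 : dK K ≠ 0 := abs_ne_zero.2 h1
    exact_mod_cast h2
  have hDd : Differentiable ℂ (fun s : ℂ => ((dK K : ℝ) : ℂ) ^ (s / 2)) := by
    intro s
    exact (differentiableAt_id.div_const 2).const_cpow (Or.inl hd)
  have hA : DifferentiableOn ℂ (fun s => g s ^ n * Ξ s) {1}ᶜ :=
    ((hg.pow n).mul hΞ).differentiableOn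
  have hB : DifferentiableOn ℂ
      (fun s => (s - 1) ^ n * ((dK K : ℝ) : ℂ) ^ (s / 2) * F s) {1}ᶜ :=
    ((((differentiable_id.sub_const 1).pow n).mul hDd).differentiableOn).mul hF.1
  have hhalf : ∀ s : ℂ, 1 < s.re →
      g s ^ n * Ξ s = (s - 1) ^ n * ((dK K : ℝ) : ℂ) ^ (s / 2) * F s := by
    intro s hs
    have h1 : F s = ∑' J : (Ideal (𝓞 K))⁰, pv ψ J * (nJ J : ℂ) ^ (-s) := by
      have h2 := (hF.2 s hs).tsum_eq
      rw [← h2]
      refine tsum_congr fun J => ?_
      unfold nJ pv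
      rw [Complex.ofReal_natCast]
    rw [hsum s hs, ← h1, ← hgG s (by linarith), mul_pow]
    ring
  have hmain := eq_of_half hA hB hhalf s hs1
  have hmain' : g s ^ n * Ξ s = (s - 1) ^ n * ((dK K : ℝ) : ℂ) ^ (s / 2) * F s := hmain
  have hgs : g s ≠ 0 := by
    intro h
    have h1 := hgG s hs0
    rw [h, zero_mul] at h1
    exact hs1 (sub_eq_zero.1 h1.symm)
  refine mul_left_cancel₀ (pow_ne_zero n hgs) ?_
  rw [hmain', ← hgG s hs0, mul_pow]
  ring

end Pool.Agent.H64.CM4
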