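import Pool.Agent.H89.CM4.Targets2

/-!
# The number of the lattices containing a vector
-/

set_option autoImplicit false
set_option linter.unusedSectionVars false

open MeasureTheory Set Filter NumberField NumberField.InfinitePlace
open scoped Real

namespace Pool.Agent.H64.CM4.CNL

open Pool.Agent.H65.CM4 Pool.Agent.H89.CM4

variable {k : Type} [Field k] [NumberField k]

open Classical in
/-- the contribution of a divisor -/
noncomputable def Fv (u : V2 k) (J : Ideal (𝓞 k)) : ℝ := if u ∈ kO J then nm J else 0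

theorem nm_mul (I J : Ideal (𝓞 k)) : nm (I * J) = nm I * nm J := by
  unfold nm
  rw [map_mul, Nat.cast_mul]

theorem mem_kO (u : V2 k) (J : Ideal (𝓞 k)) : u ∈ kO J ↔ u.1 ∈ J ∧ u.2 ∈ J := Iff.rfl

theorem Fv_mul (u : V2 k) (I J : Ideal (𝓞 k)) (h : I ⊔ J = ⊤) :
    Fv u (I * J) = Fv u I * Fv u J := by
  have hk : u ∈ kO (I * J) ↔ u ∈ kO I ∧ u ∈ kO J := by
    rw [mem_kO, mem_kO, mem_kO, Ideal.mul_eq_inf_of_coprime h]
    simp only [Submodule.mem_inf]
    tauto
  unfold Fv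
  by_cases h1 : u ∈ kO I
  · by_cases h2 : u ∈ kO J
    · rw [if_pos h1, if_pos h2, if_pos (hk.2 ⟨h1, h2⟩), nm_mul]
    · rw [if_pos h1, if_neg h2, if_neg (fun h3 => h2 (hk.1 h3).2), mul_zero]
  · rw [if_neg h1, if_neg (fun h3 => h1 (hk.1 h3).1), zero_mul]

theorem max_of_prime {P : Ideal (𝓞 k)} (hP : Prime P) : P.IsMaximal := by
  have h1 : P.IsPrime := Ideal.isPrime_of_prime hP
  exact h1.isMaximal hP.ne_zero

theorem sup_of_not_le {P I : Ideal (𝓞 k)} (hP : Prime P) (h : ¬ I ≤ P) : P ⊔ I = ⊤ := by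
  by_contra h1
  have h2 := (max_of_prime hP).eq_of_le h1 le_sup_left
  exact h (h2 ▸ le_sup_right)

section

variable [IsTotallyReal k]

open Classical in
theorem mem_dv (hIDC : T_IDC k) (g J : Ideal (𝓞 k)) (hg : g ≠ ⊥) : J ∈ dv g ↔ J ∣ g := by
  unfold dv
  rw [Finset.mem_filter, hIDC.1]
  refine ⟨fun h => h.2, fun h => ⟨⟨?_, ?_⟩, h⟩⟩
  · rintro rfl
    exact hg (zero_dvd_iff.1 h)
  · unfold nm
    have h1 : Ideal.absNorm J ∣ Ideal.absNorm g := Ideal.absNorm_dvd_absNorm_of_le (Ideal.le_of_dvd h)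
    have h2 : Ideal.absNorm g ≠ 0 := fun h3 => hg (Ideal.absNorm_eq_zero_iff.1 h3)
    exact_mod_cast Nat.le_of_dvd (Nat.pos_of_ne_zero h2) h1

theorem sumFv_mul (hIDC : T_IDC k) (u : V2 k) (P m : Ideal (𝓞 k)) (hP : Prime P) (hm : m ≠ ⊥)
    (h : ¬ m ≤ P) : ∑ J ∈ dv (P * m), Fv u J = (1 + Fv u P) * ∑ J ∈ dv m, Fv u J := by
  classical
  have hPm : P * m ≠ ⊥ := mul_ne_zero hP.ne_zero hm
  have hset : dv (P * m) = dv m ∪ (dv m).image (fun J => P * J) := by
    ext J
    rw [Finset.mem_union, Finset.mem_image, mem_dv hIDC _ _ hPm, mem_dv hIDC _ _ hm]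
    constructor
    · intro hJ
      rcases hP.left_dvd_or_dvd_right_of_dvd_mul hJ with h1 | h1
      · obtain ⟨J', rfl⟩ := h1
        refine Or.inr ⟨J', ?_, rfl⟩
        rw [mem_dv hIDC _ _ hm]
        exact (mul_dvd_mul_iff_left hP.ne_zero).1 hJ
      · exact Or.inl h1
    · rintro (h1 | ⟨J', hJ', rfl⟩)
      · exact Dvd.dvd.mul_left h1 P
      · rw [mem_dv hIDC _ _ hm] at hJ'
        exact mul_dvd_mul_left P hJ'
  have hdis : Disjoint (dv m) ((dv m).image (fun J => P * J)) := by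
    rw [Finset.disjoint_left]
    rintro J hJ hJ'
    obtain ⟨J', hJ'', rfl⟩ := Finset.mem_image.1 hJ'
    rw [mem_dv hIDC _ _ hm] at hJ
    exact h ((Ideal.le_of_dvd hJ).trans Ideal.mul_le_left)
  have hinj : ∀ x ∈ dv m, ∀ y ∈ dv m, P * x = P * y → x = y :=
    fun x _ y _ hxy => mul_left_cancel₀ hP.ne_zero hxy
  rw [hset, Finset.sum_union hdis, Finset.sum_image hinj, add_mul, one_mul, Finset.mul_sum]
  congr 1
  refine Finset.sum_congr rfl fun J hJ => ?_
  rw [mem_dv hIDC _ _ hm] at hJ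
  refine Fv_mul u P J (sup_of_not_le hP fun h1 => h ?_)
  exact (Ideal.le_of_dvd hJ).trans h1

open Classical in
/-- the number of the lattices of index `g` that contain `u` -/
noncomputable def Nv (u : V2 k) (g : Ideal (𝓞 k)) : ℝ := ((Ls g).filter (fun L => u ∈ L)).card

open Classical in
theorem Nv_mul (hCRT : T_CRT k) (u : V2 k) (f m : Ideal (𝓞 k)) (hf : f ≠ ⊥) (hm : m ≠ ⊥)
    (h : f ⊔ m = ⊤) : Nv u (f * m) = Nv u f * Nv u m := by
  obtain ⟨h1, h2, h3⟩ := hCRT f m hf hm h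
  unfold Nv
  rw [← Nat.cast_mul, ← Finset.card_product, Nat.cast_inj]
  symm
  refine Finset.card_bij (fun p _ => p.1 ⊓ p.2) ?_ ?_ ?_
  · intro p hp
    rw [Finset.mem_product, Finset.mem_filter, Finset.mem_filter] at hp
    rw [Finset.mem_filter]
    exact ⟨h1 _ hp.1.1 _ hp.2.1, hp.1.2, hp.2.2⟩
  · intro p hp q hq he
    rw [Finset.mem_product, Finset.mem_filter, Finset.mem_filter] at hp hq
    obtain ⟨e1, e2⟩ := h3 _ hp.1.1 _ hp.2.1 _ hq.1.1 _ hq.2.1 (le_of_eq he)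
    exact Prod.ext e1 e2
  · intro L hL
    rw [Finset.mem_filter] at hL
    obtain ⟨L₁, hL1, L₂, hL2, he⟩ := h2 L hL.1
    have hv : u ∈ L₁ ⊓ L₂ := he ▸ hL.2
    refine ⟨(L₁, L₂), ?_, he.symm⟩
    rw [Finset.mem_product, Finset.mem_filter, Finset.mem_filter]
    exact ⟨⟨hL1, hv.1⟩, hL2, hv.2⟩

/-- the identity of three vectors -/
theorem mem_det (P : Ideal (𝓞 k)) (hP : P.IsPrime) (u v w : V2 k) (hv : ¬ (v.1 ∈ P ∧ v.2 ∈ P))
    (h1 : det u v ∈ P) (h2 : det v w ∈ P) : det u w ∈ P := by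
  have e1 : det u w * v.1 = w.1 * det u v + u.1 * det v w := by
    simp only [det]
    ring
  have e2 : det u w * v.2 = w.2 * det u v + u.2 * det v w := by
    simp only [det]
    ring
  have d1 : det u w * v.1 ∈ P := by
    rw [e1]
    exact P.add_mem (P.mul_mem_left _ h1) (P.mul_mem_left _ h2)
  have d2 : det u w * v.2 ∈ P := by
    rw [e2]
    exact P.add_mem (P.mul_mem_left _ h1) (P.mul_mem_left _ h2)
  rcases hP.mem_or_mem d1 with h3 | h3
  · exact h3
  · rcases hP.mem_or_mem d2 with h4 | h4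
    · exact h4
    · exact absurd ⟨h3, h4⟩ hv

theorem det_symm_mem (P : Ideal (𝓞 k)) (u v : V2 k) (h : det u v ∈ P) : det v u ∈ P := by
  have e : det v u = -det u v := by
    simp only [det]
    ring
  rw [e]
  exact P.neg_mem h

theorem cop_iff (P : Ideal (𝓞 k)) (hP : Prime P) (u : V2 k) :
    Cop P u ↔ ¬ (u.1 ∈ P ∧ u.2 ∈ P) := by
  have h1 : Ideal.span {u.1, u.2} ≤ P ↔ u.1 ∈ P ∧ u.2 ∈ P := by
    rw [Ideal.span_le, Set.insert_subset_iff, Set.singleton_subset_iff]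
    rfl
  unfold Cop
  constructor
  · intro h h2
    rw [sup_eq_right.2 (h1.2 h2)] at h
    exact (max_of_prime hP).ne_top h
  · intro h
    rw [sup_comm]
    exact sup_of_not_le hP fun h2 => h (h1.1 h2)

open Classical in
theorem Nv_prime (hFLS : T_FLS k) (hLSP : T_LSP k) (u : V2 k) (P : Ideal (𝓞 k))
    (hP : Prime P) : Nv u P = 1 + Fv u P := by
  have hPne : P ≠ ⊥ := hP.ne_zero
  have hPp : P.IsPrime := Ideal.isPrime_of_prime hP
  by_cases hv : u.1 ∈ P ∧ u.2 ∈ P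
  · have h1 : Fv u P = nm P := by
      unfold Fv
      rw [if_pos ((mem_kO u P).2 hv)]
    rw [h1]
    unfold Nv
    rw [Finset.filter_true_of_mem, (hLSP P hPp hPne).1]
    · unfold nm
      push_cast
      ring
    intro L hL
    have h2 := ((hFLS P L hPne).2 hL).1
    have h3 : u.1 • ((1, 0) : V2 k) + u.2 • ((0, 1) : V2 k) = u := by
      refine Prod.ext ?_ ?_
      · simp
      · simp
    rw [← h3]
    exact L.add_mem (h2 _ hv.1 _) (h2 _ hv.2 _)
  · have h1 : Fv u P = 0 := by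
      unfold Fv
      rw [if_neg fun h => hv ((mem_kO u P).1 h)]
    rw [h1, add_zero]
    unfold Nv
    have h2 : (Ls P).filter (fun L => u ∈ L) = {Lw P u} := by
      ext L
      rw [Finset.mem_filter, Finset.mem_singleton]
      constructor
      · rintro ⟨hL, hvL⟩
        obtain ⟨w, hw, rfl⟩ := (hFLS P L hPne).1.1 hL
        rw [cop_iff P hP] at hw
        have hwu : det w u ∈ P := hvL
        refine le_antisymm (fun x hx => ?_) (fun x hx => ?_)
        · exact mem_det P hPp u w x hw (det_symm_mem P w u hwu) hx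
        · exact mem_det P hPp w u x hv hwu hx
      · rintro rfl
        refine ⟨(hFLS P _ hPne).1.2 ⟨u, (cop_iff P hP u).2 hv, rfl⟩, ?_⟩
        show det u u ∈ P
        have : det u u = 0 := by
          simp only [det]
          ring
        rw [this]
        exact P.zero_mem
    rw [h2, Finset.card_singleton, Nat.cast_one]

open Classical in
theorem Nv_top (hFLS : T_FLS k) (u : V2 k) : Nv u ⊤ = 1 := by
  unfold Nv
  have htop : ∀ w : V2 k, Lw ⊤ w = ⊤ := by
    intro w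
    refine le_antisymm le_top fun x _ => ?_
    show det w x ∈ (⊤ : Ideal (𝓞 k))
    exact Submodule.mem_top
  have hne : (⊤ : Ideal (𝓞 k)) ≠ ⊥ := top_ne_bot
  have h : (Ls (⊤ : Ideal (𝓞 k))).filter (fun L => u ∈ L) = {⊤} := by
    ext L
    rw [Finset.mem_filter, Finset.mem_singleton, (hFLS ⊤ L hne).1]
    constructor
    · rintro ⟨⟨w, -, rfl⟩, -⟩
      exact htop w
    · rintro rfl
      refine ⟨⟨0, ?_, (htop 0).symm⟩, Submodule.mem_top⟩
      unfold Cop
      exact sup_top_eq _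
  rw [h, Finset.card_singleton, Nat.cast_one]

theorem sumFv_top (hIDC : T_IDC k) (u : V2 k) : ∑ J ∈ dv (⊤ : Ideal (𝓞 k)), Fv u J = 1 := by
  classical
  have h1 : dv (⊤ : Ideal (𝓞 k)) = {⊤} := by
    ext J
    rw [mem_dv hIDC _ _ top_ne_bot, Finset.mem_singleton]
    constructor
    · intro h
      exact top_le_iff.1 (Ideal.le_of_dvd h)
    · rintro rfl
      exact dvd_rfl
  rw [h1, Finset.sum_singleton]
  unfold Fv nm
  rw [if_pos ((mem_kO u ⊤).2 ⟨Submodule.mem_top, Submodule.mem_top⟩), Ideal.absNorm_top,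
    Nat.cast_one]

theorem Nv_eq (hFLS : T_FLS k) (hCRT : T_CRT k) (hLSP : T_LSP k) (hIDC : T_IDC k) (u : V2 k) :
    ∀ g : Ideal (𝓞 k), g ≠ ⊥ → Squarefree g → Nv u g = ∑ J ∈ dv g, Fv u J := by
  intro g
  induction g using UniqueFactorizationMonoid.induction_on_prime with
  | h₁ =>
    intro h
    exact absurd rfl h
  | h₂ x hx =>
    intro _ _
    rw [Ideal.isUnit_iff.1 hx, Nv_top hFLS, sumFv_top hIDC]
  | h₃ m P hm hP ih =>
    intro _ hsq
    have hm' : m ≠ ⊥ := hm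
    have hle : ¬ m ≤ P := by
      intro h
      obtain ⟨c, hc⟩ := Ideal.dvd_iff_le.2 h
      have h1 : P * P ∣ P * m := ⟨c, by rw [hc, mul_assoc]⟩
      exact hP.not_isUnit (hsq P h1)
    have hmsq : Squarefree m := hsq.squarefree_of_dvd (Dvd.intro_left P rfl)
    rw [Nv_mul hCRT u P m hP.ne_zero hm' (sup_of_not_le hP hle), sumFv_mul hIDC u P m hP hm' hle,
      Nv_prime hFLS hLSP u P hP, ih hm' hmsq]

end

end Pool.Agent.H64.CM4.CNL

namespace Pool.Agent.H64.CM4

open Pool.Agent.H65.CM4 Pool.Agent.H89.CM4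

theorem pf_CNL (k : Type) [Field k] [NumberField k] [IsTotallyReal k] (hFLS : T_FLS k)
    (hCRT : T_CRT k) (hLSP : T_LSP k) (hIDC : T_IDC k) : T_CNL k := by
  intro g u hg hsq
  have h := CNL.Nv_eq hFLS hCRT hLSP hIDC u g hg hsq
  unfold CNL.Nv CNL.Fv at h
  rw [h, Finset.sum_filter]

end Pool.Agent.H64.CM4
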